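import Pool.Agent.H.MP_2a41cd_an.B

set_option autoImplicit false

namespace Pool.Agent.Results.MP_2a41cd_an.Yes

open Set Metric Pool.Agent.H.MP_2a41cd_an

theorem result : ∃ (X : Type) (_ : NormedAddCommGroup X) (_ : NormedSpace ℝ X), ¬ FiniteDimensional ℝ X ∧
    (∀ x y : X, ‖x‖ = 1 → ‖y‖ = 1 → x ≠ y → ‖(1 / 2 : ℝ) • (x + y)‖ < 1) ∧
    (∀ x : X, ‖x‖ = 1 → ∃! f : X →L[ℝ] ℝ, ‖f‖ = 1 ∧ f x = 1) ∧
    ∃ C : Set X, (⋃ c ∈ C, closedBall c 1) = univ ∧
      C.Pairwise fun a b => Disjoint (interior (closedBall a 1)) (interior (closedBall b 1)) := by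
  obtain ⟨I, _, M, C, h1, h2, h3, h4, h5⟩ := core
  have h0 : ∀ z, M z = 0 → z = 0 := fun z c => Finsupp.ext fun l => abs_nonpos_iff.mp (c ▸ h3 z l)
  let _ : NormedAddCommGroup (I →₀ ℝ) := AddGroupNorm.toNormedAddCommGroup ⟨M.toAddGroupSeminorm, h0⟩
  let _ : NormedSpace ℝ (I →₀ ℝ) := ⟨fun a x => (map_smul_eq_mul M a x).le⟩
  have e : ∀ z, M z = ‖z‖ := fun _ => rfl
  refine ⟨I →₀ ℝ, inferInstance, inferInstance, fun c => ?_, fun x y a b c => ?_, fun x a => ?_, C,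
    eq_univ_of_forall fun z => ?_, fun a c b d f => ?_⟩
  · exact Module.not_finite_of_infinite_basis Finsupp.basisSingleOne c
  · rw [norm_smul]
    have := (norm_add_le x y).lt_of_ne fun d => c (sub_eq_zero.mp (h0 _ (h1 x y a b (by rw [e, d, a, b]; norm_num))))
    norm_num
    linarith
  · obtain ⟨f, f1, f2⟩ := exists_dual_vector ℝ x (by simp [a])
    have u : ∀ f g : (I →₀ ℝ) →L[ℝ] ℝ, ‖f‖ = 1 → f x = 1 → ‖g‖ = 1 → g x = 1 → ∀ h, f h ≤ g h := by
      intro f g f1 f2 g1 g2 h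
      refine le_of_forall_pos_le_add fun ε ε0 => ?_
      obtain ⟨τ, b, c⟩ := ((h2 x h a ε ε0).and self_mem_nhdsWithin).exists
      have s := (le_abs_self _).trans (f.le_opNorm (x + τ • h))
      have t := (le_abs_self _).trans (g.le_opNorm (x - τ • h))
      simp only [e, f1, f2, g1, g2, map_add, map_sub, map_smul, smul_eq_mul] at b s t
      nlinarith [show 0 < τ from c]
    have f2 : f x = 1 := f2.trans a
    exact ⟨f, ⟨f1, f2⟩, fun g ⟨g1, g2⟩ => ContinuousLinearMap.ext fun h =>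
      le_antisymm (u g f g1 g2 f1 f2 h) (u f g f1 f2 g1 g2 h)⟩
  · obtain ⟨c, a, b⟩ := h4 z
    exact mem_biUnion a (mem_closedBall_iff_norm.mpr b)
  · beta_reduce
    rw [interior_closedBall _ one_ne_zero, interior_closedBall _ one_ne_zero]
    exact ball_disjoint_ball (by rw [dist_eq_norm, ← e, one_add_one_eq_two]; exact h5 c d f)

end Pool.Agent.Results.MP_2a41cd_an.Yes
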